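import Pool.Agent.H343.AN.StE

set_option autoImplicit false
set_option linter.unusedSectionVars false

/-! # MP_aa4716_al, task E3 : the cutting level is almost constant on near pairs -/

namespace Pool.Agent.H331.AN

open Pool.Agent.TH68 Pool.Agent.Helper97.Hyp Pool.Agent.H343.AN

lemma clamp_le {t t' e : ℝ} (he : 0 ≤ e) (h : t ≤ t' + e) :
    max 0 (min 1 t) ≤ max 0 (min 1 t') + e := by
  have h1 := le_max_left (0:ℝ) (min 1 t')
  have h2 := le_max_right (0:ℝ) (min 1 t')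
  refine max_le (by linarith) ?_
  rcases le_total 1 t' with h3 | h3
  · rw [min_eq_left h3] at h2 ⊢
    have := min_le_left 1 t
    linarith
  · rw [min_eq_right h3] at h2 ⊢
    have := min_le_right 1 t
    linarith

lemma phi_nonneg (ρ l : ℝ) : 0 ≤ phi ρ l := le_max_left _ _

lemma phi_le_one (ρ l : ℝ) : phi ρ l ≤ 1 := max_le zero_le_one (min_le_left _ _)

lemma phi_le {ρ l l' d : ℝ} (hρ : 0 < ρ) (hd : 0 ≤ d) (h : l ≤ l' + d) :
    phi ρ l ≤ phi ρ l' + 100 * d / ρ := by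
  unfold phi
  apply clamp_le (by positivity)
  have h1 : (l - (ρ / 2 - ρ / 50)) / (ρ / 100) = 100 * (l - (ρ / 2 - ρ / 50)) / ρ := by
    field_simp
  have h2 : (l' - (ρ / 2 - ρ / 50)) / (ρ / 100) = 100 * (l' - (ρ / 2 - ρ / 50)) / ρ := by
    field_simp
  rw [h1, h2, ← add_div]
  apply div_le_div_of_nonneg_right _ hρ.le
  linarith

/-- the function `λ ↦ phi ρ λ * max 0 (E + λ - b)` is almost monotone -/
lemma psi_fun_le {ρ θ E b l l' d : ℝ} (hρ : 0 < ρ) (hθ : 0 ≤ θ) (hθρ : 600 * θ ≤ ρ) (hd : 0 ≤ d)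
    (hE : E ≤ b) (hl' : l' ≤ ρ / 2 + 6 * θ) (h : l ≤ l' + d) :
    phi ρ l * max 0 (E + l - b) ≤ phi ρ l' * max 0 (E + l' - b) + 52 * d := by
  set g := max 0 (E + l - b) with hg
  set g' := max 0 (E + l' - b) with hg'
  have g'0 : 0 ≤ g' := le_max_left _ _
  have gle : g ≤ g' + d := by
    have h2 : E + l' - b ≤ g' := le_max_right _ _
    exact max_le (by linarith) (by linarith)
  have g'le : g' ≤ ρ / 2 + 6 * θ := max_le (by positivity) (by linarith)
  have p0 := phi_nonneg ρ l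
  have p1 := phi_le_one ρ l
  have pl := phi_le hρ hd h
  have a1 : phi ρ l * g ≤ phi ρ l * (g' + d) := mul_le_mul_of_nonneg_left gle p0
  have a2 : phi ρ l * d ≤ 1 * d := mul_le_mul_of_nonneg_right p1 hd
  have a3 : phi ρ l * g' ≤ (phi ρ l' + 100 * d / ρ) * g' := mul_le_mul_of_nonneg_right pl g'0
  have a4 : 100 * d / ρ * g' ≤ 100 * d / ρ * (ρ / 2 + 6 * θ) :=
    mul_le_mul_of_nonneg_left g'le (by positivity)
  have a5 : 100 * d / ρ * (ρ / 2 + 6 * θ) = 50 * d + d * (600 * θ / ρ) := by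
    field_simp
    ring
  have a6 : 600 * θ / ρ ≤ 1 := by
    rw [div_le_one hρ]
    exact hθρ
  have a7 : d * (600 * θ / ρ) ≤ d * 1 := mul_le_mul_of_nonneg_left a6 hd
  nlinarith

section

variable {Γ : Type} [Group Γ] {W : WNorm Γ} {𝒜 : Type} [MulAction Γ 𝒜] {Y : Sys Γ W 𝒜}

/-- one-sided version of `psi` -/
lemma psi_le (hB : ToolB) (h1 : S_e1) (R : Circ Y) (W' : WNorm (Γ ⧸ R.N)) (hQ : Quo W R.N W')
    (hρ : 10 ^ 9 * Y.θ ≤ R.ρ) (b : ℝ) (x y : Pt W')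
    (hx : b + 2 * dist x y + 3 * R.ρ ≤ dist (pt W' 1) x) (A : 𝒜) (hpos : 0 < psi R W' b A x) :
    ∃ A', psi R W' b A x ≤ psi R W' b A' y + 10 ^ 7 * Y.θ := by
  have hθ1 : 1 ≤ Y.θ := Y.hδ.trans Y.hθ
  have hρ6 : 10 ^ 6 * Y.θ ≤ R.ρ := by linarith
  have hρ0 : 0 < R.ρ := by linarith
  obtain ⟨hu1, hu2, hu3⟩ := lft_spec R hQ x
  obtain ⟨hv1, hv2, hv3⟩ := lft_spec R hQ y
  set u := lft R W' x with hu
  set v := lft R W' y with hv
  -- consequences of the positivity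
  have hent : ent R A ≤ b := by
    by_contra hcon
    unfold psi at hpos
    rw [if_neg hcon] at hpos
    exact lt_irrefl _ hpos
  have hpsi : psi R W' b A x = phi R.ρ (pd (Y.S A) (pt W 1) u) *
      max 0 (ent R A + pd (Y.S A) (pt W 1) u - b) := by
    unfold psi
    rw [if_pos hent]
  have hphi : 0 < phi R.ρ (pd (Y.S A) (pt W 1) u) := by
    rcases (phi_nonneg R.ρ (pd (Y.S A) (pt W 1) u)).eq_or_lt with h | h
    · rw [hpsi, ← h, zero_mul] at hpos
      exact absurd hpos (lt_irrefl _)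
    · exact h
  have hlam : R.ρ / 4 ≤ pd (Y.S A) (pt W 1) u := by
    by_contra hcon
    push Not at hcon
    have : phi R.ρ (pd (Y.S A) (pt W 1) u) = 0 := by
      unfold phi
      apply max_eq_left
      apply (min_le_right _ _).trans
      apply div_nonpos_of_nonpos_of_nonneg
      · linarith
      · positivity
    rw [this] at hphi
    exact lt_irrefl _ hphi
  -- the translate
  obtain ⟨m, hm, hmd⟩ := exists_smul hQ u v
  rw [hu1, hv1] at hmd
  have hred : Red R.N u (m • v) := by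
    rw [red_iff hQ, prj_smul hm, hu1, hv1, hmd]
  -- projections
  obtain ⟨e, he⟩ := Y.proj A (pt W 1)
  obtain ⟨x', hx'⟩ := Y.proj A u
  obtain ⟨-, hex, -⟩ := hB.near Y A he hx' (by linarith)
  have hRe : Redu R.N (4 * Y.θ) (pt W 1) e := Redu.sub hu3 hex
  have hlev := hB.entlev Y R hρ6 A (e := e) (m := 1) (η := 4 * Y.θ) R.N.one_mem (by linarith)
    (by linarith) (by rw [one_smul]; exact he) (by rw [one_smul]; exact hRe)
  rw [one_smul] at hlev
  have hlev' := (abs_le.1 hlev).2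
  have hpd := hB.redpd Y R hρ6 A (p := pt W 1) (q := u) (η := 0) le_rfl
    (Redu.of_red hu3 le_rfl)
  have hpd' := hB.redpd Y R hρ6
  have hdex := le_pd_of_proj he hx'
  have hfar : 2 * dist u (m • v) + R.ρ + 10 ^ 5 * Y.θ ≤ dist x' u := by
    have t1 := dist_triangle (pt W 1) x' u
    have t2 := dist_triangle (pt W 1) e x'
    rw [hmd]
    rw [hu2] at t1
    linarith
  obtain ⟨m', hm', hle⟩ := h1 Y R hρ6 A hm hu3 hv3 hred hlam hx' hfar
  refine ⟨m'⁻¹ • A, ?_⟩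
  have hT : ∀ z : Pt W, z ∈ Y.S A ↔ m'⁻¹ • z ∈ Y.S (m'⁻¹ • A) := by
    intro z
    constructor
    · exact Y.smul_mem _ _ _
    · intro hz
      have := Y.smul_mem m' _ _ hz
      rwa [smul_inv_smul, smul_inv_smul] at this
  have hpdA : pd (Y.S A) (m' • pt W 1) (m' • v) = pd (Y.S (m'⁻¹ • A)) (pt W 1) v :=
    pd_smul (Y.Sne _) hT _ _
  rw [hpdA] at hle
  have hentA : ent R (m'⁻¹ • A) = ent R A := (hB.entatt Y R A).2.2 _ (R.N.inv_mem hm')
  have hpd2 := hB.redpd Y R hρ6 (m'⁻¹ • A) (p := pt W 1) (q := v) (η := 0) le_rfl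
    (Redu.of_red hv3 le_rfl)
  have hpsi' : psi R W' b (m'⁻¹ • A) y = phi R.ρ (pd (Y.S (m'⁻¹ • A)) (pt W 1) v) *
      max 0 (ent R A + pd (Y.S (m'⁻¹ • A)) (pt W 1) v - b) := by
    unfold psi
    rw [hentA, if_pos hent]
  rw [hpsi, hpsi']
  have := psi_fun_le (θ := Y.θ) (E := ent R A) (b := b) hρ0 (by linarith) (by linarith)
    (by positivity : (0:ℝ) ≤ 10 ^ 5 * Y.θ) hent (by linarith) hle
  linarith

lemma bet_le (hB : ToolB) (h1 : S_e1) (h2 : S_e2) (R : Circ Y) (W' : WNorm (Γ ⧸ R.N))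
    (hQ : Quo W R.N W') (hρ : 10 ^ 9 * Y.θ ≤ R.ρ) (b : ℝ) (x y : Pt W')
    (hx : b + 2 * dist x y + 3 * R.ρ ≤ dist (pt W' 1) x) :
    bet R W' b x ≤ bet R W' b y + 10 ^ 7 * Y.θ := by
  have hθ1 : 1 ≤ Y.θ := Y.hδ.trans Y.hθ
  have hρ6 : 10 ^ 6 * Y.θ ≤ R.ρ := by linarith
  obtain ⟨-, -, -, -, -, hx6, -⟩ := h2 Y R W' hQ hρ6 b x
  obtain ⟨-, -, hy3, -, hy5, -, -⟩ := h2 Y R W' hQ hρ6 b y
  apply hx6
  · linarith
  · intro A
    rcases le_or_gt (psi R W' b A x) 0 with h | h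
    · linarith
    · obtain ⟨A', hA'⟩ := psi_le hB h1 R W' hQ hρ b x y hx A h
      have := hy5 A'
      linarith

end

/-- E3 (the cutting level is almost constant on near pairs) -/
theorem e3 : ToolB → S_e1 → S_e2 → S_e3 := by
  intro hB h1 h2 Γ _ W 𝒜 _ Y R W' hQ hρ b x y _ hx hy
  have a1 := bet_le hB h1 h2 R W' hQ hρ b x y hx
  have a2 := bet_le hB h1 h2 R W' hQ hρ b y x (by rw [dist_comm y x]; exact hy)
  rw [abs_le]
  constructor <;> linarith

end Pool.Agent.H331.AN
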